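import Pool.Agent.Helper53.U.Pins

/-!
# MP_506470_co : the first induction step for `KI`
-/

namespace SetHom
namespace Un

variable {V : Type} {G : SimpleGraph V}

/-- Sets described by the number of neighbours outside an invariant set are invariant. -/
theorem autPres_out {α : Type} {H : SimpleGraph α} {U C T : Set α} (hC : AutPres H U C) (k : ℕ)
    (hT : ∀ x ∈ U, (x ∈ T ↔ x ∈ C ∨ k ≤ {j | j ∈ U ∧ j ∉ C ∧ H.Adj x j}.ncard)) :
    AutPres H U T := by
  intro σ hσ hadj x hx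
  have h1 : {j | j ∈ U ∧ j ∉ C ∧ H.Adj (σ x) j} = σ '' {j | j ∈ U ∧ j ∉ C ∧ H.Adj x j} := by
    ext y
    constructor
    · rintro ⟨hy, hyC, hxy⟩
      obtain ⟨z, hz, rfl⟩ := hσ.surjOn hy
      exact ⟨z, ⟨hz, fun e => hyC ((hC σ hσ hadj z hz).2 e), (hadj x hx z hz).1 hxy⟩, rfl⟩
    · rintro ⟨z, ⟨hz, hzC, hxz⟩, rfl⟩
      exact ⟨hσ.mapsTo hz, fun e => hzC ((hC σ hσ hadj z hz).1 e), (hadj x hx z hz).2 hxz⟩
  rw [hT _ (hσ.mapsTo hx), hT _ hx, hC σ hσ hadj x hx, h1,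
    (hσ.injOn.mono (fun z hz => hz.1)).ncard_image]

/-- module U-I1. -/
theorem ki_S (hW : WG G) (hC : CliqueIn G {0}) {α : Type} [Finite α] {H : SimpleGraph α}
    {U C : Set α} {a b d : α} (h : KI H U C a b) (hd : d ∈ U) (hdC : d ∉ C) (hda : d ≠ a)
    (hdb : d ≠ b) (had : H.Adj a d) (hbd : H.Adj b d)
    (ih : ∀ (α' : Type) [Finite α'] (H' : SimpleGraph α') (U' C' : Set α') (a' b' : α'),
      KI H' U' C' a' b' → s01 H' U' C' a' b' ≤ s01 H U C a b →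
      s11 H' U' C' a' b' < s11 H U C a b → InW G 0 H' U') : InW G 0 H U := by
  classical
  have hne := h.ab
  -- the gadget
  set M : ℕ := 2 * Nat.card α + 2 with hM
  set Cr : α → α → Prop := fun z z' => z ∈ C ∨ z' ∈ C with hCr
  set E : α ⊕ α → (α ⊕ α) × Fin M → Prop := fun u j =>
    Sum.inl u ∈ tU ((α ⊕ α) × Fin M) C C ∧ u = j.1 with hE
  set X := gad H a b d a Cr E with hX
  set Γ := gU ((α ⊕ α) × Fin M) U a b d a with hΓ
  set C' := tU ((α ⊕ α) × Fin M) C C with hC'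
  -- adjacencies
  have a11 : ∀ z z', X.Adj (Sum.inl (Sum.inl z)) (Sum.inl (Sum.inl z')) ↔ H.Adj z z' :=
    fun z z' => Iff.rfl
  have a22 : ∀ z z', X.Adj (Sum.inl (Sum.inr z)) (Sum.inl (Sum.inr z')) ↔ H.Adj z z' :=
    fun z z' => Iff.rfl
  have a12 : ∀ z z', X.Adj (Sum.inl (Sum.inl z)) (Sum.inl (Sum.inr z')) ↔
      (z = a ∧ H.Adj d z') ∨ (z = b ∧ H.Adj a z') ∨ (z ≠ a ∧ z ≠ b ∧ (z ∈ C ∨ z' ∈ C)) :=
    fun z z' => Iff.rfl
  have a1p : ∀ u j, X.Adj (Sum.inl u) (Sum.inr j) ↔ (Sum.inl u ∈ C' ∧ u = j.1) :=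
    fun u j => Iff.rfl
  have app : ∀ i j, ¬ X.Adj (Sum.inr i) (Sum.inr j) := fun i j e => e
  have cne : ∀ z ∈ C, z ≠ a ∧ z ≠ b ∧ z ≠ d := fun z hz =>
    ⟨fun e => h.haC (e ▸ hz), fun e => h.hbC (e ▸ hz), fun e => hdC (e ▸ hz)⟩
  have a12c1 : ∀ z z', z ∈ C → X.Adj (Sum.inl (Sum.inl z)) (Sum.inl (Sum.inr z')) := by
    intro z z' hz
    exact (a12 z z').2 (Or.inr (Or.inr ⟨(cne z hz).1, (cne z hz).2.1, Or.inl hz⟩))
  have a12c2 : ∀ z z', z ≠ a → z ≠ b → z' ∈ C →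
      X.Adj (Sum.inl (Sum.inl z)) (Sum.inl (Sum.inr z')) := by
    intro z z' h1 h2 hz
    exact (a12 z z').2 (Or.inr (Or.inr ⟨h1, h2, Or.inr hz⟩))
  have a12n : ∀ z z', z ≠ a → z ≠ b → z ∉ C → z' ∉ C →
      ¬ X.Adj (Sum.inl (Sum.inl z)) (Sum.inl (Sum.inr z')) := by
    intro z z' h1 h2 h3 h4 e
    rcases (a12 z z').1 e with e | e | e
    · exact h1 e.1
    · exact h2 e.1
    · rcases e.2.2 with e | e
      · exact h3 e
      · exact h4 e
  have subC : C' ⊆ Γ := by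
    rintro ((z | z) | j) hu
    · rw [hC', mem_tU_1] at hu
      exact mem_gU_1.2 ⟨h.sub hu, (cne z hu).1, (cne z hu).2.1⟩
    · rw [hC', mem_tU_2] at hu
      exact mem_gU_2.2 ⟨h.sub hu, (cne z hu).2.2, (cne z hu).1⟩
    · exact mem_gU_p
  -- the point `b₀`
  set b0 : (α ⊕ α) ⊕ ((α ⊕ α) × Fin M) := Sum.inl (Sum.inr b) with hb0
  have hb0Γ : b0 ∈ Γ := mem_gU_2.2 ⟨h.hb, hdb.symm, hne.symm⟩
  have hb0C : b0 ∉ C' := by
    rw [hb0, hC', mem_tU_2]
    exact h.hbC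
  -- cliques
  have ccC : ∀ x ∈ C', ∀ y ∈ C', x ≠ y → X.Adj x y := by
    rintro ((z | z) | j) hx ((z' | z') | j') hy hxy
    · rw [hC', mem_tU_1] at hx hy
      exact h.cc z hx z' hy (fun e => hxy (by rw [e]))
    · rw [hC', mem_tU_1] at hx
      exact a12c1 z z' hx
    · exact absurd hy mem_tU_p
    · rw [hC', mem_tU_1] at hy
      exact (a12c1 z' z hy).symm
    · rw [hC', mem_tU_2] at hx hy
      exact h.cc z hx z' hy (fun e => hxy (by rw [e]))
    · exact absurd hy mem_tU_p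
    · exact absurd hx mem_tU_p
    · exact absurd hx mem_tU_p
    · exact absurd hx mem_tU_p
  have cb0 : ∀ x ∈ C', X.Adj x b0 := by
    rintro ((z | z) | j) hx
    · rw [hC', mem_tU_1] at hx
      exact a12c1 z b hx
    · rw [hC', mem_tU_2] at hx
      exact h.cb z hx
    · exact absurd hx mem_tU_p
  -- the structure of the complement of `C'`
  have n1 : ∀ z, (Sum.inl (Sum.inl z) : (α ⊕ α) ⊕ ((α ⊕ α) × Fin M)) ∈ Γ →
      (Sum.inl (Sum.inl z) : (α ⊕ α) ⊕ ((α ⊕ α) × Fin M)) ∉ C' →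
      z ∈ U ∧ z ≠ a ∧ z ≠ b ∧ z ∉ C := by
    intro z h1 h2
    rw [hΓ, mem_gU_1] at h1
    rw [hC', mem_tU_1] at h2
    exact ⟨h1.1, h1.2.1, h1.2.2, h2⟩
  have n2 : ∀ z, (Sum.inl (Sum.inr z) : (α ⊕ α) ⊕ ((α ⊕ α) × Fin M)) ∈ Γ →
      (Sum.inl (Sum.inr z) : (α ⊕ α) ⊕ ((α ⊕ α) × Fin M)) ∉ C' →
      z ∈ U ∧ z ≠ d ∧ z ≠ a ∧ z ∉ C := by
    intro z h1 h2
    rw [hΓ, mem_gU_2] at h1
    rw [hC', mem_tU_2] at h2
    exact ⟨h1.1, h1.2.1, h1.2.2, h2⟩
  -- edges outside of `C'`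
  have hedge : ∀ x ∈ Γ, x ∉ C' → ∀ y ∈ Γ, y ∉ C' → X.Adj x y →
      (x = b0 ∧ ∃ z, y = Sum.inl (Sum.inr z) ∧ H.Adj b z ∧ z ∈ U ∧ z ∉ C ∧ z ≠ a ∧ z ≠ d) ∨
      (y = b0 ∧ ∃ z, x = Sum.inl (Sum.inr z) ∧ H.Adj b z ∧ z ∈ U ∧ z ∉ C ∧ z ≠ a ∧ z ≠ d) := by
    rintro ((z | z) | i) hx hx' ((z' | z') | j) hy hy' hxy
    · have h1 := n1 z hx hx'
      have h2 := n1 z' hy hy'
      exact absurd hxy (h.ind z h1.1 h1.2.2.2 h1.2.1 h1.2.2.1 z' h2.1 h2.2.2.2 h2.2.1 h2.2.2.1)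
    · have h1 := n1 z hx hx'
      have h2 := n2 z' hy hy'
      exact absurd hxy (a12n z z' h1.2.1 h1.2.2.1 h1.2.2.2 h2.2.2.2)
    · exact absurd ((a1p _ _).1 hxy).1 hx'
    · have h1 := n2 z hx hx'
      have h2 := n1 z' hy hy'
      exact absurd hxy.symm (a12n z' z h2.2.1 h2.2.2.1 h2.2.2.2 h1.2.2.2)
    · have h1 := n2 z hx hx'
      have h2 := n2 z' hy hy'
      by_cases hzb : z = b
      · refine Or.inl ⟨by rw [hzb], z', rfl, ?_, h2.1, h2.2.2.2, h2.2.2.1, h2.2.1⟩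
        rw [← hzb]
        exact hxy
      · by_cases hzb' : z' = b
        · refine Or.inr ⟨by rw [hzb'], z, rfl, ?_, h1.1, h1.2.2.2, h1.2.2.1, h1.2.1⟩
          rw [← hzb']
          exact SimpleGraph.Adj.symm hxy
        · exact absurd hxy (h.ind z h1.1 h1.2.2.2 h1.2.2.1 hzb z' h2.1 h2.2.2.2 h2.2.2.1 hzb')
    · exact absurd ((a1p _ _).1 hxy).1 hx'
    · exact absurd ((a1p _ _).1 hxy.symm).1 hy'
    · exact absurd ((a1p _ _).1 hxy.symm).1 hy'
    · exact absurd hxy (app i j)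
  have hedge' : ∀ x ∈ Γ, x ∉ C' → x ≠ b0 → ∀ y ∈ Γ, y ∉ C' → y ≠ b0 → ¬ X.Adj x y := by
    intro x hx hx' hxb y hy hy' hyb hxy
    rcases hedge x hx hx' y hy hy' hxy with ⟨e, -⟩ | ⟨e, -⟩
    · exact hxb e
    · exact hyb e
  -- the base with `x`
  have hInx : InW G 0 X (insert (Sum.inl (Sum.inl a)) Γ) := by
    have hxb0 : X.Adj (Sum.inl (Sum.inl a)) b0 := (a12 a b).2 (Or.inl ⟨rfl, hbd.symm⟩)
    have hxC : ∀ x ∈ C', X.Adj (Sum.inl (Sum.inl a)) x := by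
      rintro ((z | z) | j) hx
      · rw [hC', mem_tU_1] at hx
        exact (h.ca z hx).symm
      · rw [hC', mem_tU_2] at hx
        exact (a12 a z).2 (Or.inl ⟨rfl, (h.cov z hx d hd hdC hda hdb (Or.inl had)).symm⟩)
      · exact absurd hx mem_tU_p
    have hcl : ∀ x ∈ insert (Sum.inl (Sum.inl a)) (insert b0 C'),
        ∀ y ∈ insert (Sum.inl (Sum.inl a)) (insert b0 C'), x ≠ y → X.Adj x y := by
      rintro x (rfl | rfl | hx) y (rfl | rfl | hy) hxy
      · exact absurd rfl hxy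
      · exact hxb0
      · exact hxC y hy
      · exact hxb0.symm
      · exact absurd rfl hxy
      · exact (cb0 y hy).symm
      · exact (hxC x hx).symm
      · exact cb0 x hx
      · exact ccC x hx y hy hxy
    refine (hC _ X _ hcl).inW ?_ rfl
    intro x hx hx' y hy hy'
    have hx1 : x ≠ Sum.inl (Sum.inl a) := fun e => hx' (Or.inl e)
    have hx2 : x ≠ b0 := fun e => hx' (Or.inr (Or.inl e))
    have hx3 : x ∉ C' := fun e => hx' (Or.inr (Or.inr e))
    have hy1 : y ≠ Sum.inl (Sum.inl a) := fun e => hy' (Or.inl e)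
    have hy2 : y ≠ b0 := fun e => hy' (Or.inr (Or.inl e))
    have hy3 : y ∉ C' := fun e => hy' (Or.inr (Or.inr e))
    exact hedge' x (hx.resolve_left hx1) hx3 hx2 y (hy.resolve_left hy1) hy3 hy2
  -- the base with `y`
  have hnyb0 : ¬ X.Adj (Sum.inl (Sum.inl b)) b0 := by
    intro e
    rcases (a12 b b).1 e with e | e | e
    · exact hne e.1.symm
    · exact h.nab e.2
    · exact e.2.1 rfl
  have hIny : InW G 0 X (insert (Sum.inl (Sum.inl b)) Γ) := by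
    -- elements of the independent part
    have k2 : ∀ z, (Sum.inl (Sum.inr z) : (α ⊕ α) ⊕ ((α ⊕ α) × Fin M)) ∈
        insert (Sum.inl (Sum.inl b)) Γ → (Sum.inl (Sum.inr z) : (α ⊕ α) ⊕ _) ∉ C' →
        (Sum.inl (Sum.inr z) : (α ⊕ α) ⊕ _) ≠ b0 → z ∈ U ∧ z ∉ C ∧ z ≠ a ∧ z ≠ b ∧ z ≠ d := by
      intro z h1 h2 h3
      have h4 : (Sum.inl (Sum.inr z) : (α ⊕ α) ⊕ ((α ⊕ α) × Fin M)) ∈ Γ := by
        rcases h1 with h1 | h1
        · simp at h1
        · exact h1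
      have h5 := n2 z h4 h2
      exact ⟨h5.1, h5.2.2.2, h5.2.2.1, fun e => h3 (by rw [e]), h5.2.1⟩
    have k1 : ∀ z, (Sum.inl (Sum.inl z) : (α ⊕ α) ⊕ ((α ⊕ α) × Fin M)) ∈
        insert (Sum.inl (Sum.inl b)) Γ → (Sum.inl (Sum.inl z) : (α ⊕ α) ⊕ _) ∉ C' →
        (Sum.inl (Sum.inl z) : (α ⊕ α) ⊕ ((α ⊕ α) × Fin M)) ≠ Sum.inl (Sum.inl b) →
        z ∈ U ∧ z ∉ C ∧ z ≠ a ∧ z ≠ b := by
      intro z h1 h2 h3
      have h5 := n1 z (h1.resolve_left h3) h2
      exact ⟨h5.1, h5.2.2.2, h5.2.1, h5.2.2.1⟩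
    have nb01 : ∀ z, z ≠ a → z ≠ b → z ∉ C → ¬ X.Adj b0 (Sum.inl (Sum.inl z)) := by
      intro z h1 h2 h3 e
      exact a12n z b h1 h2 h3 h.hbC e.symm
    have yz2 : ∀ z, X.Adj (Sum.inl (Sum.inl b)) (Sum.inl (Sum.inr z)) → H.Adj a z := by
      intro z e
      rcases (a12 b z).1 e with e | e | e
      · exact absurd e.1.symm hne
      · exact e.2
      · exact absurd rfl e.2.1
    have yz2' : ∀ z, H.Adj a z → X.Adj (Sum.inl (Sum.inl b)) (Sum.inl (Sum.inr z)) := by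
      intro z e
      exact (a12 b z).2 (Or.inr (Or.inl ⟨rfl, e⟩))
    refine ih _ X _ C' (Sum.inl (Sum.inl b)) b0 ⟨fun x hx => Or.inr (subC hx),
      Set.mem_insert _ _, Or.inr hb0Γ, ?_, hb0C, ?_, hnyb0, ccC, ?_, cb0, ?_, ?_⟩ ?_ ?_
    · rw [hC', mem_tU_1]
      exact h.hbC
    · rw [hb0]
      simp
    · rintro ((z | z) | j) hx
      · rw [hC', mem_tU_1] at hx
        exact h.cb z hx
      · rw [hC', mem_tU_2] at hx
        exact (yz2' z (h.ca z hx).symm).symm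
      · exact absurd hx mem_tU_p
    · intro x hx hx' hxy hxb0 y hy hy' hyy hyb0
      exact hedge' x (hx.resolve_left hxy) hx' hxb0 y (hy.resolve_left hyy) hy' hyb0
    · rintro c hc ((z | z) | j) hj hj' hjy hjb0 hadj
      · have h1 := k1 z hj hj' hjy
        have hbz : H.Adj b z := by
          rcases hadj with e | e
          · exact e
          · exact absurd e (nb01 z h1.2.2.1 h1.2.2.2 h1.2.1)
        rcases c with (c | c) | i
        · rw [hC', mem_tU_1] at hc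
          exact h.cov c hc z h1.1 h1.2.1 h1.2.2.1 h1.2.2.2 (Or.inr hbz)
        · rw [hC', mem_tU_2] at hc
          exact (a12c2 z c h1.2.2.1 h1.2.2.2 hc).symm
        · exact absurd hc mem_tU_p
      · have h1 := k2 z hj hj' hjb0
        have habz : H.Adj a z ∨ H.Adj b z := by
          rcases hadj with e | e
          · exact Or.inl (yz2 z e)
          · exact Or.inr e
        rcases c with (c | c) | i
        · rw [hC', mem_tU_1] at hc
          exact a12c1 c z hc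
        · rw [hC', mem_tU_2] at hc
          exact h.cov c hc z h1.1 h1.2.1 h1.2.2.1 h1.2.2.2.1 habz
        · exact absurd hc mem_tU_p
      · exfalso
        rcases hadj with e | e
        · have := ((a1p _ _).1 e).1
          rw [hC', mem_tU_1] at this
          exact h.hbC this
        · exact hb0C ((a1p _ _).1 e).1
    · -- `s01`
      unfold s01
      have e : {j | j ∈ insert (Sum.inl (Sum.inl b)) Γ ∧ j ∉ C' ∧ j ≠ Sum.inl (Sum.inl b) ∧
          j ≠ b0 ∧ ¬ X.Adj (Sum.inl (Sum.inl b)) j ∧ X.Adj b0 j} ⊆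
          (fun z => (Sum.inl (Sum.inr z) : (α ⊕ α) ⊕ ((α ⊕ α) × Fin M))) ''
          {j | j ∈ U ∧ j ∉ C ∧ j ≠ a ∧ j ≠ b ∧ ¬ H.Adj a j ∧ H.Adj b j} := by
        rintro ((z | z) | j) ⟨h1, h2, h3, h4, h5, h6⟩
        · have h7 := k1 z h1 h2 h3
          exact absurd h6 (nb01 z h7.2.2.1 h7.2.2.2 h7.2.1)
        · have h7 := k2 z h1 h2 h4
          exact ⟨z, ⟨h7.1, h7.2.1, h7.2.2.1, h7.2.2.2.1, fun e => h5 (yz2' z e), h6⟩, rfl⟩
        · exact absurd ((a1p _ _).1 h6).1 hb0C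
      refine (Set.ncard_le_ncard e (Set.toFinite _)).trans (le_of_eq ?_)
      rw [Set.ncard_image_of_injective]
      intro z z' e
      exact Sum.inr.inj (Sum.inl.inj e)
    · -- `s11`
      unfold s11
      have e : {j | j ∈ insert (Sum.inl (Sum.inl b)) Γ ∧ j ∉ C' ∧ j ≠ Sum.inl (Sum.inl b) ∧
          j ≠ b0 ∧ X.Adj (Sum.inl (Sum.inl b)) j ∧ X.Adj b0 j} ⊆
          (fun z => (Sum.inl (Sum.inr z) : (α ⊕ α) ⊕ ((α ⊕ α) × Fin M))) ''
          ({j | j ∈ U ∧ j ∉ C ∧ j ≠ a ∧ j ≠ b ∧ H.Adj a j ∧ H.Adj b j} \ {d}) := by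
        rintro ((z | z) | j) ⟨h1, h2, h3, h4, h5, h6⟩
        · have h7 := k1 z h1 h2 h3
          exact absurd h6 (nb01 z h7.2.2.1 h7.2.2.2 h7.2.1)
        · have h7 := k2 z h1 h2 h4
          exact ⟨z, ⟨⟨h7.1, h7.2.1, h7.2.2.1, h7.2.2.2.1, yz2 z h5, h6⟩, h7.2.2.2.2⟩, rfl⟩
        · exact absurd ((a1p _ _).1 h6).1 hb0C
      refine (Set.ncard_le_ncard e (Set.toFinite _)).trans_lt ?_
      rw [Set.ncard_image_of_injective]
      · exact Set.ncard_sdiff_singleton_lt_of_mem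
          (show d ∈ {j | j ∈ U ∧ j ∉ C ∧ j ≠ a ∧ j ≠ b ∧ H.Adj a j ∧ H.Adj b j} from
            ⟨hd, hdC, hda, hdb, had, hbd⟩) (Set.toFinite _)
      · intro z z' e
        exact Sum.inr.inj (Sum.inl.inj e)
  -- the difference
  have hdiff : ∃ u ∈ Γ, ¬ (X.Adj (Sum.inl (Sum.inl a)) u ↔ X.Adj (Sum.inl (Sum.inl b)) u) := by
    refine ⟨b0, hb0Γ, fun e => hnyb0 (e.1 ?_)⟩
    exact (a12 a b).2 (Or.inl ⟨rfl, hbd.symm⟩)
  -- conjugacy
  have hMpos : 0 < M := by omega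
  have hM1 : 1 < M := by omega
  have hnd : ∀ x ∈ Γ, ∃ y ∈ Γ, y ≠ x ∧ ¬ X.Adj x y := by
    rintro (u | j) hu
    · refine ⟨Sum.inr (Sum.inl a, ⟨0, hMpos⟩), mem_gU_p, by simp, fun e => ?_⟩
      have e1 := (a1p _ _).1 e
      rw [show u = Sum.inl a from e1.2, hC', mem_tU_1] at e1
      exact h.haC e1.1
    · by_cases hj : j = (Sum.inl b, ⟨0, hMpos⟩)
      · exact ⟨Sum.inr (Sum.inl b, ⟨1, hM1⟩), mem_gU_p, by rw [hj]; simp, app _ _⟩
      · exact ⟨Sum.inr (Sum.inl b, ⟨0, hMpos⟩), mem_gU_p, by simpa using fun e => hj e.symm,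
          app _ _⟩
  have hautC : AutPres X Γ C' := by
    refine autPres_out (C := ∅) (fun σ _ _ x _ => Iff.rfl) M fun x hx => ?_
    constructor
    · intro hxC
      rcases x with u | j
      · right
        have e : (fun i : Fin M => (Sum.inr (u, i) : (α ⊕ α) ⊕ ((α ⊕ α) × Fin M))) '' Set.univ ⊆
            {j | j ∈ Γ ∧ j ∉ (∅ : Set _) ∧ X.Adj (Sum.inl u) j} := by
          rintro _ ⟨i, -, rfl⟩
          exact ⟨mem_gU_p, Set.notMem_empty _, (a1p _ _).2 ⟨hxC, rfl⟩⟩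
        have h3 := Set.ncard_le_ncard e (Set.toFinite _)
        rw [Set.ncard_image_of_injective, Set.ncard_univ, Nat.card_fin] at h3
        · exact h3
        · intro i j hij
          simpa using hij
      · exact absurd hxC mem_tU_p
    · rintro (hx' | hx')
      · exact absurd hx' (Set.notMem_empty _)
      · by_contra hxC
        have h1 : {j | j ∈ Γ ∧ j ∉ (∅ : Set _) ∧ X.Adj x j}.ncard ≤ 2 * Nat.card α := by
          have e : {j | j ∈ Γ ∧ j ∉ (∅ : Set _) ∧ X.Adj x j} ⊆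
              Set.range (Sum.inl : α ⊕ α → (α ⊕ α) ⊕ ((α ⊕ α) × Fin M)) := by
            rintro (u | j) ⟨-, -, hxj⟩
            · exact ⟨u, rfl⟩
            · exfalso
              rcases x with v | k
              · exact hxC ((a1p _ _).1 hxj).1
              · exact app _ _ hxj
          refine (Set.ncard_le_ncard e (Set.toFinite _)).trans (le_of_eq ?_)
          rw [← Set.image_univ, Set.ncard_image_of_injective _ Sum.inl_injective, Set.ncard_univ,
            Nat.card_sum]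
          ring
        omega
  -- the leaves
  set Sb : Set α := {z | z ∈ U ∧ z ∉ C ∧ z ≠ a ∧ z ≠ b ∧ z ≠ d ∧ H.Adj b z} with hSb
  have leafΓ : ∀ z ∈ Sb, (Sum.inl (Sum.inr z) : (α ⊕ α) ⊕ ((α ⊕ α) × Fin M)) ∈ Γ :=
    fun z hz => mem_gU_2.2 ⟨hz.1, hz.2.2.2.2.1, hz.2.2.1⟩
  have leafC : ∀ z ∈ Sb, (Sum.inl (Sum.inr z) : (α ⊕ α) ⊕ ((α ⊕ α) × Fin M)) ∉ C' := by
    intro z hz
    rw [hC', mem_tU_2]
    exact hz.2.1
  have leafn : ∀ z ∈ Sb, (Sum.inl (Sum.inr z) : (α ⊕ α) ⊕ ((α ⊕ α) × Fin M)) ≠ b0 := by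
    intro z hz e
    exact hz.2.2.2.1 (Sum.inr.inj (Sum.inl.inj e))
  have N0 : {j | j ∈ Γ ∧ j ∉ C' ∧ X.Adj b0 j} =
      (fun z => (Sum.inl (Sum.inr z) : (α ⊕ α) ⊕ ((α ⊕ α) × Fin M))) '' Sb := by
    ext y
    constructor
    · rintro ⟨h1, h2, h3⟩
      rcases hedge b0 hb0Γ hb0C y h1 h2 h3 with ⟨-, z, rfl, h4, h5, h6, h7, h8⟩ | ⟨e, -⟩
      · exact ⟨z, ⟨h5, h6, h7, h4.ne.symm, h8, h4⟩, rfl⟩
      · rw [e] at h3
        exact absurd h3 (X.irrefl)
    · rintro ⟨z, hz, rfl⟩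
      exact ⟨leafΓ z hz, leafC z hz, hz.2.2.2.2.2⟩
  have N0c : {j | j ∈ Γ ∧ j ∉ C' ∧ X.Adj b0 j}.ncard = Sb.ncard := by
    rw [N0, Set.ncard_image_of_injective]
    intro z z' e
    exact Sum.inr.inj (Sum.inl.inj e)
  have N1 : ∀ x ∈ Γ, x ∉ C' → x ≠ b0 → {j | j ∈ Γ ∧ j ∉ C' ∧ X.Adj x j} ⊆ {b0} := by
    rintro x hx hx' hxb y ⟨h1, h2, h3⟩
    by_contra hy
    exact hedge' x hx hx' hxb y h1 h2 hy h3
  have N1c : ∀ x ∈ Γ, x ∉ C' → x ≠ b0 → {j | j ∈ Γ ∧ j ∉ C' ∧ X.Adj x j}.ncard ≤ 1 := by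
    intro x hx hx' hxb
    refine (Set.ncard_le_ncard (N1 x hx hx' hxb) (Set.toFinite _)).trans (le_of_eq ?_)
    exact Set.ncard_singleton _
  have N2 : ∀ x ∈ Γ, x ∉ C' → x ≠ b0 → 1 ≤ {j | j ∈ Γ ∧ j ∉ C' ∧ X.Adj x j}.ncard →
      ∃ z ∈ Sb, x = Sum.inl (Sum.inr z) := by
    intro x hx hx' hxb hc
    obtain ⟨y, h1, h2, h3⟩ := (Set.ncard_pos (Set.toFinite _)).1 hc
    rcases hedge x hx hx' y h1 h2 h3 with ⟨e, -⟩ | ⟨-, z, rfl, h4, h5, h6, h7, h8⟩
    · exact absurd e hxb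
    · exact ⟨z, ⟨h5, h6, h7, h4.ne.symm, h8, h4⟩, rfl⟩
  have huniq : Uniq G 0 X Γ := by
    rcases Nat.lt_trichotomy Sb.ncard 1 with hs | hs | hs
    · -- no leaves
      have hS0 : Sb = ∅ := by
        rw [← Set.ncard_eq_zero (Set.toFinite _)]
        omega
      refine hW {0} 0 rfl _ X Γ C' subC ?_ (hC _ X _ ccC) hnd hautC
      intro x hx hx' y hy hy' hxy
      rcases hedge x hx hx' y hy hy' hxy with ⟨-, z, -, h4, h5, h6, h7, h8⟩ |
        ⟨-, z, -, h4, h5, h6, h7, h8⟩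
      · have : z ∈ Sb := ⟨h5, h6, h7, h4.ne.symm, h8, h4⟩
        rw [hS0] at this
        exact this
      · have : z ∈ Sb := ⟨h5, h6, h7, h4.ne.symm, h8, h4⟩
        rw [hS0] at this
        exact this
    · -- one leaf
      obtain ⟨z0, hz0⟩ := Set.ncard_eq_one.1 hs
      have hz0S : z0 ∈ Sb := by
        rw [hz0]
        rfl
      set T := insert b0 (insert (Sum.inl (Sum.inr z0)) C') with hT
      have hz0C : ∀ x ∈ C', X.Adj x (Sum.inl (Sum.inr z0)) := by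
        rintro ((z | z) | j) hx
        · rw [hC', mem_tU_1] at hx
          exact a12c1 z z0 hx
        · rw [hC', mem_tU_2] at hx
          exact h.cov z hx z0 hz0S.1 hz0S.2.1 hz0S.2.2.1 hz0S.2.2.2.1
            (Or.inr hz0S.2.2.2.2.2)
        · exact absurd hx mem_tU_p
      have hb0z0 : X.Adj b0 (Sum.inl (Sum.inr z0)) := hz0S.2.2.2.2.2
      have hcl : ∀ x ∈ T, ∀ y ∈ T, x ≠ y → X.Adj x y := by
        rintro x (rfl | rfl | hx) y (rfl | rfl | hy) hxy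
        · exact absurd rfl hxy
        · exact hb0z0
        · exact (cb0 y hy).symm
        · exact hb0z0.symm
        · exact absurd rfl hxy
        · exact (hz0C y hy).symm
        · exact cb0 x hx
        · exact hz0C x hx
        · exact ccC x hx y hy hxy
      refine hW {0} 0 rfl _ X Γ T ?_ ?_ (hC _ X _ hcl) hnd ?_
      · rintro x (rfl | rfl | hx)
        · exact hb0Γ
        · exact leafΓ z0 hz0S
        · exact subC hx
      · intro x hx hx' y hy hy'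
        exact hedge' x hx (fun e => hx' (Or.inr (Or.inr e))) (fun e => hx' (Or.inl e)) y hy
          (fun e => hy' (Or.inr (Or.inr e))) (fun e => hy' (Or.inl e))
      · refine autPres_out hautC 1 fun x hx => ?_
        constructor
        · rintro (rfl | rfl | hx')
          · right
            rw [N0c, hs]
          · right
            rw [Nat.succ_le_iff, Set.ncard_pos (Set.toFinite _)]
            exact ⟨b0, hb0Γ, hb0C, hb0z0.symm⟩
          · exact Or.inl hx'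
        · rintro (hx' | hx')
          · exact Or.inr (Or.inr hx')
          · by_cases hxC : x ∈ C'
            · exact Or.inr (Or.inr hxC)
            · by_cases hxb : x = b0
              · exact Or.inl hxb
              · obtain ⟨z, hz, rfl⟩ := N2 x hx hxC hxb hx'
                rw [hz0] at hz
                rw [Set.mem_singleton_iff.1 hz]
                exact Or.inr (Or.inl rfl)
    · -- several leaves
      set T := insert b0 C' with hT
      have hcl : ∀ x ∈ T, ∀ y ∈ T, x ≠ y → X.Adj x y := by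
        rintro x (rfl | hx) y (rfl | hy) hxy
        · exact absurd rfl hxy
        · exact (cb0 y hy).symm
        · exact cb0 x hx
        · exact ccC x hx y hy hxy
      refine hW {0} 0 rfl _ X Γ T ?_ ?_ (hC _ X _ hcl) hnd ?_
      · rintro x (rfl | hx)
        · exact hb0Γ
        · exact subC hx
      · intro x hx hx' y hy hy'
        exact hedge' x hx (fun e => hx' (Or.inr e)) (fun e => hx' (Or.inl e)) y hy
          (fun e => hy' (Or.inr e)) (fun e => hy' (Or.inl e))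
      · refine autPres_out hautC 2 fun x hx => ?_
        constructor
        · rintro (rfl | hx')
          · right
            rw [N0c]
            exact hs
          · exact Or.inl hx'
        · rintro (hx' | hx')
          · exact Or.inr hx'
          · by_cases hxC : x ∈ C'
            · exact Or.inr hxC
            · by_cases hxb : x = b0
              · exact Or.inl hxb
              · have := N1c x hx hxC hxb
                omega
  refine t1 (D := ∅) hne h.nab had.symm (Set.empty_subset _)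
    (fun z hz => absurd hz (Set.notMem_empty z)) (Or.inl fun z hz => absurd hz
      (Set.notMem_empty z)) ?_ hdiff hInx hIny
  rw [Set.sdiff_empty]
  have e0 : 0 + (∅ : Set ((α ⊕ α) ⊕ ((α ⊕ α) × Fin M))).ncard = 0 := by
    rw [Set.ncard_empty]
  rw [e0]
  exact huniq

end Un
end SetHom
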