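import Pool.Agent.Helper53.U.Pins

/-!
# MP_506470_co : the induction step of the nested case of Lemma K
-/

namespace SetHom
namespace Un

variable {V : Type} {G : SimpleGraph V}

/-- module U-K1 (the induction step of the nested case; uses wg as a hypothesis-stub). -/
theorem lemK1_step (hW : WG G) {s : ℕ} (hF : FreeIn G (s + 1)) (n : ℕ)
    (ih : ∀ (α : Type) [Finite α] (H : SimpleGraph α) (U T : Set α) (a b : α),
      KC H U T a b s → (∀ z ∈ U, z ≠ b → H.Adj a z → H.Adj b z) →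
      {z | z ∈ U ∧ z ≠ b ∧ ¬ H.Adj b z}.ncard = n → ∀ r, InW G r H U)
    {α : Type} [Finite α] {H : SimpleGraph α} {U T : Set α} {a b : α}
    (h : KC H U T a b s) (hn : ∀ z ∈ U, z ≠ b → H.Adj a z → H.Adj b z)
    (hc : {z | z ∈ U ∧ z ≠ b ∧ ¬ H.Adj b z}.ncard = n + 1) (r : ℕ) : InW G r H U := by
  classical
  obtain ⟨w, hwU, hwb, hbw⟩ : ∃ w, w ∈ U ∧ w ≠ b ∧ ¬ H.Adj b w := by
    have : {z | z ∈ U ∧ z ≠ b ∧ ¬ H.Adj b z}.Nonempty := by
      rw [← Set.ncard_pos (Set.toFinite _), hc]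
      omega
    exact this
  have hab := h.ab
  have haU : a ∈ U := h.sub h.ha
  have hbU : b ∈ U := h.sub h.hb
  have hne : a ≠ b := hab.ne
  have hwa : w ≠ a := by
    rintro rfl
    exact hbw hab.symm
  have haw : ¬ H.Adj a w := fun e => hbw (hn w hwU hwb e)
  -- the gadget
  set M : ℕ := 2 * Nat.card α + 2 with hM
  set C : α → α → Prop := fun z _ => z = b with hC
  set T1 : Set α := T \ {w, a} with hT1
  set T2 : Set α := T \ {a, b} with hT2
  set E : α ⊕ α → (α ⊕ α) × Fin M → Prop := fun u j =>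
    (Sum.inl u ∈ tU ((α ⊕ α) × Fin M) T1 T2 ∧ u = j.1) ∨ u = Sum.inl b with hE
  set X := gad H w a a b C E with hX
  set Γ := gU ((α ⊕ α) × Fin M) U w a a b with hΓ
  set TG := tU ((α ⊕ α) × Fin M) T1 T2 with hTG
  have m1 : ∀ z, z ∈ T1 ↔ z ∈ T ∧ z ≠ w ∧ z ≠ a := by
    intro z
    simp [hT1]
  have m2 : ∀ z, z ∈ T2 ↔ z ∈ T ∧ z ≠ a ∧ z ≠ b := by
    intro z
    simp [hT2]
  have hbT1 : b ∈ T1 := (m1 b).2 ⟨h.hb, hwb.symm, hne.symm⟩
  -- adjacencies
  have a11 : ∀ z z', X.Adj (Sum.inl (Sum.inl z)) (Sum.inl (Sum.inl z')) ↔ H.Adj z z' :=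
    fun z z' => Iff.rfl
  have a22 : ∀ z z', X.Adj (Sum.inl (Sum.inr z)) (Sum.inl (Sum.inr z')) ↔ H.Adj z z' :=
    fun z z' => Iff.rfl
  have a12 : ∀ z z', X.Adj (Sum.inl (Sum.inl z)) (Sum.inl (Sum.inr z')) ↔
      (z = w ∧ H.Adj a z') ∨ (z = a ∧ H.Adj b z') ∨ (z ≠ w ∧ z ≠ a ∧ z = b) :=
    fun z z' => Iff.rfl
  have a1p : ∀ u j, X.Adj (Sum.inl u) (Sum.inr j) ↔
      (Sum.inl u ∈ TG ∧ u = j.1) ∨ u = Sum.inl b := fun u j => Iff.rfl
  have app : ∀ i j, ¬ X.Adj (Sum.inr i) (Sum.inr j) := fun i j e => e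
  have a12n : ∀ z z', z ≠ w → z ≠ a → z ≠ b →
      ¬ X.Adj (Sum.inl (Sum.inl z)) (Sum.inl (Sum.inr z')) := by
    intro z z' h1 h2 h3 e
    rcases (a12 z z').1 e with e | e | e
    · exact h1 e.1
    · exact h2 e.1
    · exact h3 e.2.2
  -- clique bounds
  have cf0 : CF X (tU ((α ⊕ α) × Fin M) (T \ {w, a, b}) T2) s := by
    refine cf_tU (h.fab.mono ?_ le_rfl) h.fab ?_
    · rintro z ⟨hz1, hz2⟩
      simp only [Set.mem_insert_iff, Set.mem_singleton_iff, not_or] at hz2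
      exact ⟨hz1, by simp [hz2]⟩
    · rintro z ⟨-, hz2⟩ z' -
      simp only [Set.mem_insert_iff, Set.mem_singleton_iff, not_or] at hz2
      exact a12n z z' hz2.1 hz2.2.1 hz2.2.2
  have cfn : CF X {u | u ∈ TG ∧ X.Adj (Sum.inl (Sum.inl b)) u} s := by
    have hnb : CF H {u | u ∈ T \ {a} ∧ H.Adj b u} s :=
      h.fa.nbr (v := b) ⟨h.hb, by simp [hne.symm]⟩
    refine (cf_tU (H := H) (p := w) (q := a) (c := a) (d := b) (C := C) (E := E)
      (T1 := {z | z ∈ T1 ∧ H.Adj b z}) (T2 := T2) (hnb.mono ?_ le_rfl) h.fab ?_).mono ?_ le_rfl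
    · rintro z ⟨hz1, hz2⟩
      rw [m1] at hz1
      exact ⟨⟨hz1.1, by simp [hz1.2.2]⟩, hz2⟩
    · rintro z ⟨hz1, hz2⟩ z' -
      rw [m1] at hz1
      exact a12n z z' hz1.2.1 hz1.2.2 hz2.ne.symm
    · rintro ((z | z) | j) ⟨hu1, hu2⟩
      · rw [hTG, mem_tU_1] at hu1
        rw [mem_tU_1]
        exact ⟨hu1, hu2⟩
      · rw [hTG, mem_tU_2] at hu1
        rw [mem_tU_2]
        exact hu1
      · exact absurd hu1 mem_tU_p
  have sub0 : TG \ {Sum.inl (Sum.inl b)} ⊆ tU ((α ⊕ α) × Fin M) (T \ {w, a, b}) T2 := by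
    rintro ((z | z) | j) ⟨hu1, hu2⟩
    · rw [hTG, mem_tU_1, m1] at hu1
      rw [mem_tU_1]
      simp only [Set.mem_singleton_iff, Sum.inl.injEq] at hu2
      exact ⟨hu1.1, by simp [hu1.2.1, hu1.2.2, hu2]⟩
    · rw [hTG, mem_tU_2] at hu1
      rw [mem_tU_2]
      exact hu1
    · exact absurd hu1 mem_tU_p
  have cfTG : CF X TG (s + 1) :=
    CF.of_nbr (v := Sum.inl (Sum.inl b)) (cf0.mono sub0 (Nat.le_succ s)) cfn
  have subΓ : TG ⊆ Γ := by
    rintro ((z | z) | j) hu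
    · rw [hTG, mem_tU_1, m1] at hu
      rw [hΓ, mem_gU_1]
      exact ⟨h.sub hu.1, hu.2⟩
    · rw [hTG, mem_tU_2, m2] at hu
      rw [hΓ, mem_gU_2]
      exact ⟨h.sub hu.1, hu.2⟩
    · exact mem_gU_p
  have hind : ∀ x ∈ Γ, x ∉ TG → ∀ y ∈ Γ, y ∉ TG → ¬ X.Adj x y := by
    have n1 : ∀ z, (Sum.inl (Sum.inl z) : (α ⊕ α) ⊕ ((α ⊕ α) × Fin M)) ∈ Γ →
        (Sum.inl (Sum.inl z) : (α ⊕ α) ⊕ ((α ⊕ α) × Fin M)) ∉ TG →
        z ∈ U ∧ z ≠ w ∧ z ≠ a ∧ z ∉ T := by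
      intro z h1 h2
      rw [hΓ, mem_gU_1] at h1
      rw [hTG, mem_tU_1, m1] at h2
      exact ⟨h1.1, h1.2.1, h1.2.2, fun e => h2 ⟨e, h1.2⟩⟩
    have n2 : ∀ z, (Sum.inl (Sum.inr z) : (α ⊕ α) ⊕ ((α ⊕ α) × Fin M)) ∈ Γ →
        (Sum.inl (Sum.inr z) : (α ⊕ α) ⊕ ((α ⊕ α) × Fin M)) ∉ TG → z ∈ U ∧ z ∉ T := by
      intro z h1 h2
      rw [hΓ, mem_gU_2] at h1
      rw [hTG, mem_tU_2, m2] at h2
      exact ⟨h1.1, fun e => h2 ⟨e, h1.2⟩⟩
    have hbT : ∀ z, z ∉ T → z ≠ b := fun z hz e => hz (e ▸ h.hb)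
    rintro ((z | z) | i) hx hx' ((z' | z') | j) hy hy'
    · have h1 := n1 z hx hx'
      have h2 := n1 z' hy hy'
      exact h.ind z h1.1 h1.2.2.2 z' h2.1 h2.2.2.2
    · have h1 := n1 z hx hx'
      exact a12n z z' h1.2.1 h1.2.2.1 (hbT z h1.2.2.2)
    · have h1 := n1 z hx hx'
      rw [a1p]
      rintro (e | e)
      · exact hx' e.1
      · exact hbT z h1.2.2.2 (Sum.inl.inj e)
    · have h1 := n1 z' hy hy'
      rw [X.adj_comm]
      exact a12n z' z h1.2.1 h1.2.2.1 (hbT z' h1.2.2.2)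
    · have h1 := n2 z hx hx'
      have h2 := n2 z' hy hy'
      exact h.ind z h1.1 h1.2 z' h2.1 h2.2
    · rw [a1p]
      rintro (e | e)
      · exact hx' e.1
      · simp at e
    · have h1 := n1 z' hy hy'
      rw [X.adj_comm, a1p]
      rintro (e | e)
      · exact hy' e.1
      · exact hbT z' h1.2.2.2 (Sum.inl.inj e)
    · rw [X.adj_comm, a1p]
      rintro (e | e)
      · exact hy' e.1
      · simp at e
    · exact app i j
  have hPS : PS G Set.univ X TG := hF _ X TG cfTG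
  have hindx : ∀ v : (α ⊕ α) ⊕ ((α ⊕ α) × Fin M), ∀ x ∈ insert v Γ, x ∉ insert v TG →
      ∀ y ∈ insert v Γ, y ∉ insert v TG → ¬ X.Adj x y := by
    intro v x hx hx' y hy hy'
    have hx1 : x ≠ v := fun e => hx' (Or.inl e)
    have hy1 : y ≠ v := fun e => hy' (Or.inl e)
    exact hind x (hx.resolve_left hx1) (fun e => hx' (Or.inr e)) y (hy.resolve_left hy1)
      (fun e => hy' (Or.inr e))
  -- the base with `x`
  have hInx : InW G r X (insert (Sum.inl (Sum.inl w)) Γ) := by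
    have cfx : CF X (insert (Sum.inl (Sum.inl w)) TG) (s + 1) := by
      refine CF.of_nbr (v := Sum.inl (Sum.inl b)) ((cf0.insert (Sum.inl (Sum.inl w))).mono ?_
        le_rfl) (cfn.mono ?_ le_rfl)
      · rintro u ⟨hu1, hu2⟩
        rcases hu1 with hu1 | hu1
        · exact Or.inl hu1
        · exact Or.inr (sub0 ⟨hu1, hu2⟩)
      · rintro u ⟨hu1, hu2⟩
        rcases hu1 with hu1 | hu1
        · rw [hu1] at hu2
          exact absurd hu2 hbw
        · exact ⟨hu1, hu2⟩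
    exact (hF _ X _ cfx).inW (hindx _) (Set.mem_univ r)
  -- the base with `y`
  have hIny : InW G r X (insert (Sum.inl (Sum.inl a)) Γ) := by
    refine ih _ X _ (insert (Sum.inl (Sum.inl a)) TG) (Sum.inl (Sum.inl a)) (Sum.inl (Sum.inl b))
      ⟨Set.insert_subset_insert subΓ, Set.mem_insert _ _, Or.inr (mem_tU_1.2 hbT1), hab,
        hindx _, ?_, ?_, ?_⟩ ?_ ?_ r
    · refine cfTG.mono ?_ le_rfl
      rintro u ⟨hu1, hu2⟩
      exact hu1.resolve_left hu2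
    · refine (cf0.insert (Sum.inl (Sum.inl a))).mono ?_ le_rfl
      rintro u ⟨hu1, hu2⟩
      rcases hu1 with hu1 | hu1
      · exact Or.inl hu1
      · exact Or.inr (sub0 ⟨hu1, hu2⟩)
    · refine cf0.mono ?_ le_rfl
      rintro u ⟨hu1, hu2⟩
      simp only [Set.mem_insert_iff, Set.mem_singleton_iff, not_or] at hu2
      exact sub0 ⟨hu1.resolve_left hu2.1, hu2.2⟩
    · -- nested
      rintro ((z | z) | j) hz hzb hyz
      · have hzb' : z ≠ b := fun e => hzb (by rw [e])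
        have hzU : z ∈ U := by
          rcases hz with hz | hz
          · rw [Sum.inl.inj (Sum.inl.inj hz)]
            exact haU
          · exact (mem_gU_1.1 hz).1
        exact hn z hzU hzb' hyz
      · exact (a12 b z).2 (Or.inr (Or.inr ⟨hwb.symm, hne.symm, rfl⟩))
      · exact (a1p _ _).2 (Or.inr rfl)
    · -- the count
      have e : {z | z ∈ insert (Sum.inl (Sum.inl a)) Γ ∧ z ≠ Sum.inl (Sum.inl b) ∧
          ¬ X.Adj (Sum.inl (Sum.inl b)) z} =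
          (fun z => (Sum.inl (Sum.inl z) : (α ⊕ α) ⊕ ((α ⊕ α) × Fin M))) ''
            ({z | z ∈ U ∧ z ≠ b ∧ ¬ H.Adj b z} \ {w}) := by
        ext u
        constructor
        · rintro ⟨hu1, hu2, hu3⟩
          rcases u with (z | z) | j
          · have hza : z ≠ a := by
              rintro rfl
              exact hu3 hab.symm
            have hzb : z ≠ b := fun e => hu2 (by rw [e])
            have hz : (Sum.inl (Sum.inl z) : (α ⊕ α) ⊕ ((α ⊕ α) × Fin M)) ∈ Γ := by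
              rcases hu1 with hz | hz
              · exact absurd (Sum.inl.inj (Sum.inl.inj hz)) hza
              · exact hz
            have hz' := mem_gU_1.1 hz
            exact ⟨z, ⟨⟨hz'.1, hzb, hu3⟩, hz'.2.1⟩, rfl⟩
          · exact absurd ((a12 b z).2 (Or.inr (Or.inr ⟨hwb.symm, hne.symm, rfl⟩))) hu3
          · exact absurd ((a1p _ _).2 (Or.inr rfl)) hu3
        · rintro ⟨z, ⟨⟨hz1, hz2, hz3⟩, hz4⟩, rfl⟩
          have hza : z ≠ a := by
            rintro rfl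
            exact hz3 hab.symm
          refine ⟨Or.inr (mem_gU_1.2 ⟨hz1, hz4, hza⟩), ?_, hz3⟩
          intro e
          exact hz2 (Sum.inl.inj (Sum.inl.inj e))
      rw [e, Set.ncard_image_of_injective]
      · have := Set.ncard_sdiff_singleton_of_mem (s := {z | z ∈ U ∧ z ≠ b ∧ ¬ H.Adj b z})
          (a := w) ⟨hwU, hwb, hbw⟩
        rw [this, hc]
        rfl
      · intro z z' e
        exact Sum.inl.inj (Sum.inl.inj e)
  -- non-adjacent points
  have hndc : ∀ u : α ⊕ α, u ≠ Sum.inl b → ∀ i : Fin M,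
      ¬ X.Adj (Sum.inl u) (Sum.inr (Sum.inl b, i)) := by
    intro u hu i
    rw [a1p]
    rintro (e | e)
    · exact hu e.2
    · exact hu e
  have hMpos : 0 < M := by omega
  have hM1 : 1 < M := by omega
  have hMc : 2 * Nat.card α < M := by omega
  have hndp : ∀ j : (α ⊕ α) × Fin M, ∃ k : (α ⊕ α) × Fin M, k ≠ j := by
    intro j
    by_cases hj : j = (Sum.inl b, ⟨0, hMpos⟩)
    · exact ⟨(Sum.inl b, ⟨1, hM1⟩), by rw [hj]; simp⟩
    · exact ⟨_, fun e => hj e.symm⟩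
  have hbΓ : (Sum.inl (Sum.inl b) : (α ⊕ α) ⊕ ((α ⊕ α) × Fin M)) ∈ Γ :=
    mem_gU_1.2 ⟨hbU, hwb.symm, hne.symm⟩
  have hdiff : ∃ u ∈ Γ, ¬ (X.Adj (Sum.inl (Sum.inl w)) u ↔ X.Adj (Sum.inl (Sum.inl a)) u) := by
    refine ⟨_, hbΓ, fun e => ?_⟩
    rw [a11, a11] at e
    exact hbw (e.2 hab).symm
  rcases Nat.eq_zero_or_pos n with hn0 | hn0
  · -- `b` sees everything
    have hall : ∀ z ∈ U, z ≠ b → z ≠ w → H.Adj b z := by
      intro z hz hzb hzw
      by_contra hbz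
      have h1 : ({w, z} : Set α) ⊆ {z | z ∈ U ∧ z ≠ b ∧ ¬ H.Adj b z} := by
        rintro u (rfl | rfl)
        · exact ⟨hwU, hwb, hbw⟩
        · exact ⟨hz, hzb, hbz⟩
      have h2 := Set.ncard_le_ncard h1 (Set.toFinite _)
      rw [Set.ncard_pair (Ne.symm hzw), hc] at h2
      omega
    refine t1 (D := {Sum.inl (Sum.inl b)}) hwa (fun e => haw e.symm) hab
      (by rintro _ rfl; exact hbΓ) ?_ (Or.inr ?_) ?_ hdiff hInx hIny
    · rintro _ rfl ((z | z) | j) hu hne'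
      · have hu' := mem_gU_1.1 hu
        exact hall z hu'.1 (fun e => hne' (by rw [e])) hu'.2.1
      · exact (a12 b z).2 (Or.inr (Or.inr ⟨hwb.symm, hne.symm, rfl⟩))
      · exact (a1p _ _).2 (Or.inr rfl)
    · rintro _ rfl
      exact hab
    · refine hW Set.univ _ (Set.mem_univ _) _ X _ (TG \ {Sum.inl (Sum.inl b)})
        (Set.sdiff_subset_sdiff_left subΓ) ?_ (hPS.mono Set.sdiff_subset) ?_ ?_
      · rintro x ⟨hx, hxb⟩ hx' y ⟨hy, hyb⟩ hy'
        exact hind x hx (fun e => hx' ⟨e, hxb⟩) y hy (fun e => hy' ⟨e, hyb⟩)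
      · rintro (u | j) ⟨hu, hub⟩
        · refine ⟨Sum.inr (Sum.inl b, ⟨0, hMpos⟩), ⟨mem_gU_p, by simp⟩, by simp, ?_⟩
          exact hndc u (fun e => hub (by rw [e]; rfl)) _
        · obtain ⟨k, hk⟩ := hndp j
          exact ⟨Sum.inr k, ⟨mem_gU_p, by simp⟩, by simpa using hk, app j k⟩
      · refine autPres_pins hMc ?_ ?_
        · rintro x ⟨hx, hxb⟩ hx' y ⟨hy, hyb⟩ hy'
          exact hind x hx (fun e => hx' ⟨e, hxb⟩) y hy (fun e => hy' ⟨e, hyb⟩)
        · rintro (u | j) ⟨hu, hub⟩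
          · exact ⟨u, rfl, fun i => ⟨⟨mem_gU_p, by simp⟩, fun e => mem_tU_p e.1,
              (a1p _ _).2 (Or.inl ⟨hu, rfl⟩)⟩⟩
          · exact absurd hu mem_tU_p
  · -- another point not adjacent to `b`
    obtain ⟨z0, ⟨hz0U, hz0b, hbz0⟩, hz0w⟩ : ∃ z0, z0 ∈ {z | z ∈ U ∧ z ≠ b ∧ ¬ H.Adj b z} ∧
        z0 ≠ w := by
      apply Set.exists_ne_of_one_lt_ncard
      rw [hc]
      omega
    have hz0a : z0 ≠ a := by
      rintro rfl
      exact hbz0 hab.symm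
    refine t1 (D := ∅) hwa (fun e => haw e.symm) hab (Set.empty_subset _)
      (fun z hz => absurd hz (Set.notMem_empty z)) (Or.inl fun z hz => absurd hz
        (Set.notMem_empty z)) ?_ hdiff hInx hIny
    rw [Set.sdiff_empty]
    refine hW Set.univ _ (Set.mem_univ _) _ X Γ TG subΓ hind hPS ?_ ?_
    · rintro (u | j) hu
      · by_cases hub : u = Sum.inl b
        · refine ⟨Sum.inl (Sum.inl z0), mem_gU_1.2 ⟨hz0U, hz0w, hz0a⟩, ?_, ?_⟩
          · rw [hub]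
            intro e
            exact hz0b (Sum.inl.inj (Sum.inl.inj e))
          · rw [hub, a11]
            exact hbz0
        · exact ⟨Sum.inr (Sum.inl b, ⟨0, hMpos⟩), mem_gU_p, by simp, hndc u hub _⟩
      · obtain ⟨k, hk⟩ := hndp j
        exact ⟨Sum.inr k, mem_gU_p, by simpa using hk, app j k⟩
    · refine autPres_pins hMc hind ?_
      rintro (u | j) hu
      · exact ⟨u, rfl, fun i => ⟨mem_gU_p, mem_tU_p, (a1p _ _).2 (Or.inl ⟨hu, rfl⟩)⟩⟩
      · exact absurd hu mem_tU_p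

end Un
end SetHom
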