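import Pool.Agent.Helper30.U.Defs2

/-!
# MP_506470_co : tools for the gadget arguments (pins, subsets of the two copies)
-/

namespace SetHom
namespace Un

variable {V : Type} {G : SimpleGraph V}

section tU
variable {α π : Type}

/-- The points of `T1` in the first copy and of `T2` in the second copy. -/
def tU (π : Type) (T1 T2 : Set α) : Set ((α ⊕ α) ⊕ π) :=
  {x | (∀ z, x = Sum.inl (Sum.inl z) → z ∈ T1) ∧ (∀ z, x = Sum.inl (Sum.inr z) → z ∈ T2) ∧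
    ∀ i, x ≠ Sum.inr i}

@[simp] theorem mem_tU_1 {T1 T2 : Set α} {z : α} :
    (Sum.inl (Sum.inl z) : (α ⊕ α) ⊕ π) ∈ tU π T1 T2 ↔ z ∈ T1 := by
  simp [tU]

@[simp] theorem mem_tU_2 {T1 T2 : Set α} {z : α} :
    (Sum.inl (Sum.inr z) : (α ⊕ α) ⊕ π) ∈ tU π T1 T2 ↔ z ∈ T2 := by
  simp [tU]

@[simp] theorem mem_tU_p {T1 T2 : Set α} {i : π} :
    ¬ (Sum.inr i : (α ⊕ α) ⊕ π) ∈ tU π T1 T2 := by
  simp [tU]

theorem cf_tU {H : SimpleGraph α} {p q c d : α} {C : α → α → Prop} {E : α ⊕ α → π → Prop}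
    {T1 T2 : Set α} {s : ℕ} (h1 : CF H T1 s) (h2 : CF H T2 s)
    (hx : ∀ z ∈ T1, ∀ z' ∈ T2, ¬ (gad H p q c d C E).Adj (Sum.inl (Sum.inl z))
      (Sum.inl (Sum.inr z'))) : CF (gad H p q c d C E) (tU π T1 T2) s := by
  have e : tU π T1 T2 ⊆ (fun z => Sum.inl (Sum.inl z)) '' T1 ∪
      (fun z => Sum.inl (Sum.inr z)) '' T2 := by
    rintro ((z | z) | i) hz
    · exact Or.inl ⟨z, mem_tU_1.1 hz, rfl⟩
    · exact Or.inr ⟨z, mem_tU_2.1 hz, rfl⟩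
    · exact absurd hz mem_tU_p
  refine CF.mono (CF.union (h1.image (X := gad H p q c d C E) (fun z => Sum.inl (Sum.inl z)) ?_)
    (h2.image (X := gad H p q c d C E) (fun z => Sum.inl (Sum.inr z)) ?_) ?_) e le_rfl
  · intro x _ y _ h
    exact h
  · intro x _ y _ h
    exact h
  · rintro _ ⟨x, hx1, rfl⟩ _ ⟨y, hy1, rfl⟩ _
    exact hx x hx1 y hy1

/-- The cover is preserved by automorphisms if its points have many own pins. -/
theorem autPres_pins [Finite α] {M : ℕ} (hM : 2 * Nat.card α < M)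
    {X : SimpleGraph ((α ⊕ α) ⊕ ((α ⊕ α) × Fin M))} {Γ T : Set ((α ⊕ α) ⊕ ((α ⊕ α) × Fin M))}
    (hJ : ∀ x ∈ Γ, x ∉ T → ∀ y ∈ Γ, y ∉ T → ¬ X.Adj x y)
    (hT : ∀ t ∈ T, ∃ u, t = Sum.inl u ∧ ∀ i, Sum.inr (u, i) ∈ Γ ∧ Sum.inr (u, i) ∉ T ∧
      X.Adj (Sum.inl u) (Sum.inr (u, i))) : AutPres X Γ T := by
  refine autPres_of_deg hJ fun t ht => ?_
  obtain ⟨u, rfl, hu⟩ := hT t ht
  have h1 : T.ncard ≤ 2 * Nat.card α := by
    have e : T ⊆ Set.range (Sum.inl : α ⊕ α → (α ⊕ α) ⊕ ((α ⊕ α) × Fin M)) := by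
      intro t ht
      obtain ⟨u, rfl, -⟩ := hT t ht
      exact ⟨u, rfl⟩
    refine (Set.ncard_le_ncard e (Set.toFinite _)).trans (le_of_eq ?_)
    rw [← Set.image_univ, Set.ncard_image_of_injective _ Sum.inl_injective, Set.ncard_univ,
      Nat.card_sum]
    ring
  have h2 : M ≤ {j | j ∈ Γ ∧ j ∉ T ∧ X.Adj (Sum.inl u) j}.ncard := by
    have e : (fun i : Fin M => (Sum.inr (u, i) : (α ⊕ α) ⊕ ((α ⊕ α) × Fin M))) '' Set.univ ⊆
        {j | j ∈ Γ ∧ j ∉ T ∧ X.Adj (Sum.inl u) j} := by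
      rintro _ ⟨i, -, rfl⟩
      exact hu i
    have h3 := Set.ncard_le_ncard e (Set.toFinite _)
    rw [Set.ncard_image_of_injective, Set.ncard_univ, Nat.card_fin] at h3
    · exact h3
    · intro i j hij
      simpa using hij
  omega

end tU

end Un
end SetHom
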